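import Pool.Agent.Q277.RBLin

/-!
# Bounded reduced bandwidth of the `p`-subdivision of `K_n` forces `p = Ω(n)`

`K_n` is a `p`-shallow minor of its `p`-subdivision, which has no `K_{3,3}` subgraph. So this
follows from the linear expansion of `K_{3,3}`-free graphs of bounded reduced bandwidth.
-/

set_option autoImplicit false

namespace Pool.Agent.Results.MP_ec82ff_co.LinearSubdivision

open Pool.Agent.Q277.RB Pool.Agent.Q277.RBLin

/-- the vertices of the `p`-subdivision of `K_n`: the branch vertices `0, ..., n - 1`, and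
for each pair `i < j` (an edge of `K_n`) the internal vertices `(i, j), m` with `m < p` -/
abbrev Vtx (n p : ℕ) : Type := Fin n ⊕ ({e : Fin n × Fin n // e.1 < e.2} × Fin p)

/-- the edges: the path for `i < j` is `i, ((i, j), 0), ..., ((i, j), p - 1), j` -/
inductive Edge (n p : ℕ) : Vtx n p → Vtx n p → Prop
  | first (e : {e : Fin n × Fin n // e.1 < e.2}) (m : Fin p) (h : m.val = 0) :
      Edge n p (Sum.inl e.1.1) (Sum.inr (e, m))
  | mid (e : {e : Fin n × Fin n // e.1 < e.2}) (m m' : Fin p) (h : m'.val = m.val + 1) :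
      Edge n p (Sum.inr (e, m)) (Sum.inr (e, m'))
  | last (e : {e : Fin n × Fin n // e.1 < e.2}) (m : Fin p) (h : m.val + 1 = p) :
      Edge n p (Sum.inr (e, m)) (Sum.inl e.1.2)

/-- the `p`-subdivision of `K_n` -/
def subdivision (n p : ℕ) : SimpleGraph (Vtx n p) := SimpleGraph.fromRel (Edge n p)

theorem adj_of_edge {n p : ℕ} {x y : Vtx n p} (h : Edge n p x y) : (subdivision n p).Adj x y := by
  rw [subdivision, SimpleGraph.fromRel_adj]
  refine ⟨?_, Or.inl h⟩
  rintro rfl
  cases h with
  | mid m m' h => omega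

/-- two branch vertices are not adjacent -/
theorem not_adj_inl {n p : ℕ} (i j : Fin n) :
    ¬ (subdivision n p).Adj (Sum.inl i) (Sum.inl j) := by
  rw [subdivision, SimpleGraph.fromRel_adj]
  rintro ⟨-, h | h⟩ <;> cases h

/-- internal vertices have degree at most 2 -/
theorem deg_inr {n p : ℕ} (e : {e : Fin n × Fin n // e.1 < e.2}) (m : Fin p)
    (Y : Finset (Vtx n p)) (h : ∀ y ∈ Y, (subdivision n p).Adj (Sum.inr (e, m)) y) :
    Y.card ≤ 2 := by
  classical
  let a : Vtx n p := if h : m.val = 0 then Sum.inl e.1.1 else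
    Sum.inr (e, ⟨m.val - 1, by have := m.isLt; omega⟩)
  let b : Vtx n p := if h : m.val + 1 = p then Sum.inl e.1.2 else
    Sum.inr (e, ⟨m.val + 1, by have := m.isLt; omega⟩)
  have hsub : Y ⊆ {a, b} := by
    intro y hy
    have hadj := h y hy
    rw [subdivision, SimpleGraph.fromRel_adj] at hadj
    rw [Finset.mem_insert, Finset.mem_singleton]
    obtain ⟨-, h | h⟩ := hadj
    · cases h with
      | mid _ _ m' h' =>
        right
        simp only [b]
        rw [dif_neg (by have := m'.isLt; omega)]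
        congr 2
        exact Fin.ext h'
      | last _ _ h' =>
        right
        simp only [b]
        rw [dif_pos h']
    · cases h with
      | first _ _ h' =>
        left
        simp only [a]
        rw [dif_pos h']
      | mid _ m' _ h' =>
        left
        simp only [a]
        rw [dif_neg (by omega)]
        congr 2
        apply Fin.ext
        simp only
        omega
  exact (Finset.card_le_card hsub).trans Finset.card_le_two

theorem no_K33 (n p : ℕ) (X Y : Finset (Vtx n p))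
    (h : ∀ x ∈ X, ∀ y ∈ Y, (subdivision n p).Adj x y) : X.card < 3 ∨ Y.card < 3 := by
  by_contra hcon
  push Not at hcon
  obtain ⟨hX, hY⟩ := hcon
  obtain ⟨x, hx⟩ := Finset.card_pos.1 (by omega : 0 < X.card)
  obtain ⟨y, hy⟩ := Finset.card_pos.1 (by omega : 0 < Y.card)
  rcases x with i | ⟨e, m⟩
  · rcases y with j | ⟨e, m⟩
    · exact not_adj_inl i j (h _ hx _ hy)
    · have := deg_inr e m X (fun z hz => (h z hz _ hy).symm)
      omega
  · have := deg_inr e m Y (fun z hz => h _ hx z hz)
    omega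

/-- the branch sets: a branch vertex together with the paths to all larger branch vertices -/
def br (n p : ℕ) (i : Fin n) : Set (Vtx n p) :=
  {x | x = Sum.inl i ∨ ∃ (e : {e : Fin n × Fin n // e.1 < e.2}) (m : Fin p),
    e.1.1 = i ∧ x = Sum.inr (e, m)}

theorem walk_br (n p : ℕ) (e : {e : Fin n × Fin n // e.1 < e.2}) (m : ℕ) (hm : m < p) :
    ∃ w : (subdivision n p).Walk (Sum.inl e.1.1) (Sum.inr (e, ⟨m, hm⟩)),
      w.length ≤ m + 1 ∧ ∀ y ∈ w.support, y ∈ br n p e.1.1 := by
  induction m with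
  | zero =>
    refine ⟨SimpleGraph.Walk.cons (adj_of_edge (Edge.first e ⟨0, hm⟩ rfl)) SimpleGraph.Walk.nil,
      by simp, ?_⟩
    intro y hy
    simp only [SimpleGraph.Walk.support_cons, SimpleGraph.Walk.support_nil, List.mem_cons,
      List.not_mem_nil, or_false] at hy
    rcases hy with rfl | rfl
    · exact Or.inl rfl
    · exact Or.inr ⟨e, _, rfl, rfl⟩
  | succ m ih =>
    obtain ⟨w, hw, hs⟩ := ih (by omega)
    refine ⟨w.concat (adj_of_edge (Edge.mid e ⟨m, by omega⟩ ⟨m + 1, hm⟩ rfl)), ?_, ?_⟩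
    · rw [SimpleGraph.Walk.length_concat]; omega
    · intro y hy
      rw [SimpleGraph.Walk.support_concat, List.mem_append, List.mem_singleton] at hy
      rcases hy with hy | rfl
      · exact hs y hy
      · exact Or.inr ⟨e, _, rfl, rfl⟩

theorem isMinor (n p : ℕ) (hp : 1 ≤ p) :
    IsShallowMinor p (⊤ : SimpleGraph (Fin n)) (subdivision n p) := by
  refine ⟨br n p, ?_, ?_, ?_⟩
  · intro a b hab
    rw [Set.disjoint_left]
    rintro x (rfl | ⟨e, m, he, rfl⟩) (h | ⟨e', m', he', h⟩)
    · exact hab (Sum.inl_injective h)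
    · cases h
    · cases h
    · have h1 := Sum.inr_injective h
      rw [Prod.mk.injEq] at h1
      apply hab
      rw [← he, ← he', h1.1]
  · intro i
    refine ⟨Sum.inl i, Or.inl rfl, ?_⟩
    rintro x (rfl | ⟨e, ⟨m, hm⟩, rfl, rfl⟩)
    · exact ⟨SimpleGraph.Walk.nil, by simp, by
        intro y hy
        rw [SimpleGraph.Walk.support_nil, List.mem_singleton] at hy
        rw [hy]; exact Or.inl rfl⟩
    · obtain ⟨w, hw, hs⟩ := walk_br n p e m hm
      exact ⟨w, by omega, hs⟩
  · have key : ∀ a b : Fin n, a < b → ∃ x ∈ br n p a, ∃ y ∈ br n p b,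
        (subdivision n p).Adj x y := by
      intro a b hab
      exact ⟨Sum.inr (⟨(a, b), hab⟩, ⟨p - 1, by omega⟩), Or.inr ⟨_, _, rfl, rfl⟩, Sum.inl b,
        Or.inl rfl, adj_of_edge (Edge.last ⟨(a, b), hab⟩ ⟨p - 1, by omega⟩ (by simp only; omega))⟩
    intro a b hab
    rcases lt_or_gt_of_ne hab.ne with h | h
    · exact key a b h
    · obtain ⟨x, hx, y, hy, hxy⟩ := key b a h
      exact ⟨y, hy, x, hx, hxy.symm⟩

theorem card_top (n : ℕ) : 2 * (⊤ : SimpleGraph (Fin n)).edgeSet.ncard = n * (n - 1) := by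
  classical
  have h1 : (⊤ : SimpleGraph (Fin n)).edgeSet.ncard = (⊤ : SimpleGraph (Fin n)).edgeFinset.card := by
    rw [← SimpleGraph.coe_edgeFinset, Set.ncard_coe_finset]
  rw [h1, SimpleGraph.card_edgeFinset_top_eq_card_choose_two, Fintype.card_fin,
    Nat.choose_two_right]
  exact Nat.mul_div_cancel' (Nat.even_mul_pred_self n).two_dvd

/-- For every constant `c` there is `δ > 0` such that for all `n ≥ 2` and `p ≥ 1` for which the
`p`-subdivision of `K_n` has reduced bandwidth at most `c` we have `p ≥ δ n`. -/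
theorem result : ∀ c : ℕ, ∃ δ : ℝ, 0 < δ ∧ ∀ n p : ℕ, 2 ≤ n → 1 ≤ p →
    ReducedBandwidthLE (subdivision n p) c → δ * n ≤ p := by
  intro c
  obtain ⟨K, hK⟩ : ∃ K, K = 3 * (12 * c + 1) * (1 + (4 * c + 2) * (2 * c + 4)) := ⟨_, rfl⟩
  refine ⟨1 / (4 * K + 1), by positivity, ?_⟩
  intro n p hn hp hG
  have h1 := main (subdivision n p) c 3 p (by norm_num) hG (no_K33 n p) ⊤ (isMinor n p hp)
  rw [← hK, Fintype.card_fin] at h1
  have h2 := card_top n
  have h3 : n * (n - 1) ≤ n * (2 * (K * (p + 1))) := by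
    rw [← h2]
    calc 2 * (⊤ : SimpleGraph (Fin n)).edgeSet.ncard ≤ 2 * (K * (p + 1) * n) :=
          Nat.mul_le_mul_left 2 h1
      _ = n * (2 * (K * (p + 1))) := by ring
  have h4 : n - 1 ≤ 2 * (K * (p + 1)) := Nat.le_of_mul_le_mul_left h3 (by omega)
  have h5 : n ≤ (4 * K + 1) * p := by
    have h7 : K * (p + 1) ≤ K * (2 * p) := Nat.mul_le_mul_left K (by omega)
    have h8 : (4 * K + 1) * p = 2 * (K * (2 * p)) + p := by ring
    omega
  have h6 : (n : ℝ) ≤ (4 * K + 1) * p := by exact_mod_cast h5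
  rw [div_mul_eq_mul_div, one_mul, div_le_iff₀ (by positivity)]
  linarith

end Pool.Agent.Results.MP_ec82ff_co.LinearSubdivision
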